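import Pool.Agent.H45.DepG

open MeasureTheory Filter Topology Finset Asymptotics Pool.Agent.H45.DepG

namespace Pool.Agent.Results.MP_b3d828_pr.Counter

variable {V : Type} [Fintype V] [DecidableEq V] {m s : ℕ} (φ : V ≃ (ZMod 3 × Fin m) × Fin s)

def c (u v : V) : (V × ZMod 3 × Fin m) ⊕ Sym2 V :=
  if (φ v).1.1 = (φ u).1.1 + 1 then .inl (u, (φ v).1)
  else if (φ u).1.1 = (φ v).1.1 + 1 then .inl (v, (φ u).1) else .inr s(u, v)

def cl : Sym2 V → (V × ZMod 3 × Fin m) ⊕ Sym2 V := Sym2.lift ⟨c φ, fun u v => by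
  have : ∀ a b : ZMod 3, a = b + 1 → b ≠ a + 1 := by decide
  unfold c
  split_ifs with h1 h2 <;> simp_all [Sym2.eq_swap]⟩

omit [DecidableEq V] in
lemma fib (hs : 0 < s) (x) : {e | ¬ e.IsDiag ∧ cl φ e = x}.ncard ≤ s := by
  rcases x with ⟨u, g⟩ | e
  · refine (Set.ncard_le_ncard (t := (fun i => s(u, φ.symm (g, i))) '' Set.univ) ?_).trans
      ((Set.ncard_image_le).trans (by simp))
    rintro ⟨a, b⟩ ⟨-, h⟩
    change c φ a b = _ at h
    unfold c at h
    split_ifs at h <;> simp only [Sum.inl.injEq, Prod.mk.injEq] at h <;> obtain ⟨rfl, rfl⟩ := h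
    · exact ⟨(φ b).2, trivial, by simp⟩
    · exact ⟨(φ a).2, trivial, by simp⟩
  · refine (Set.ncard_le_ncard (t := {e}) ?_).trans (by simpa)
    rintro ⟨a, b⟩ ⟨-, h⟩
    change c φ a b = _ at h
    unfold c at h
    split_ifs at h
    exact Sum.inr.inj h

lemma conn (hm : 0 < m) (hs : 2 * m ≤ s) {p : ℝ} (hp : p ∈ Set.Icc (0 : ℝ) 1) :
    (coins _ p).real {ω | ¬ (cg (cl φ) ω).Connected} ≤ 12 * m ^ 2 * Real.exp (-(p * (m * s))) := by
  have := (model (cl φ) hp fun x => (fib φ (by omega) x).trans s.le_succ).1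
  let A := fun g : ZMod 3 × Fin m => (univ.image fun x : Fin m × Fin s =>
    (.inl (φ.symm ((g.1 - 1, x.1), x.2), g) : (V × ZMod 3 × Fin m) ⊕ Sym2 V))
  let B := fun g : ZMod 3 × Fin m × Fin m => (univ.image fun x : Fin m × Fin s =>
    (.inr s(φ.symm ((g.1, g.2.1), x.1.castLE (by omega)), φ.symm ((g.1, g.2.2), x.2)) :
      (V × ZMod 3 × Fin m) ⊕ Sym2 V))
  have : {ω | ¬ (cg (cl φ) ω).Connected} ⊆ (⋃ g, {ω | ∀ c ∈ A g, ¬ ω c}) ∪
      ⋃ g : {g : ZMod 3 × Fin m × Fin m // g.2.1 ≠ g.2.2}, {ω | ∀ c ∈ B g, ¬ ω c} := fun ω h => by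
    by_contra H
    simp only [Set.mem_union, Set.mem_iUnion, Set.mem_ofPred_eq, not_or, not_exists, not_forall, not_not,
      A, B, mem_image, mem_univ, true_and] at H
    have h1 : ∀ g, ∃ u, (φ u).1.1 = g.1 - 1 ∧ ∀ v, (φ v).1 = g → (cg (cl φ) ω).Reachable u v := fun g => by
      obtain ⟨_, ⟨x, rfl⟩, h⟩ := H.1 g
      refine ⟨φ.symm ((g.1 - 1, x.1), x.2), by simp, fun v hv => SimpleGraph.Adj.reachable ?_⟩
      have : ∀ a : ZMod 3, a - 1 ≠ a := by decide
      simp only [cg, SimpleGraph.fromEdgeSet_adj, Set.mem_ofPred_eq, cl, Sym2.lift_mk, c]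
      exact ⟨by simpa [hv], fun e => this g.1 (by simpa [hv] using congrArg (fun v => (φ v).1.1) e)⟩
    have h2 : ∀ u v, (φ u).1 = (φ v).1 → (cg (cl φ) ω).Reachable u v := fun u v h =>
      let ⟨_, _, h'⟩ := h1 (φ v).1; (h' u h).symm.trans (h' v rfl)
    have h3 : ∀ u v, (φ u).1.1 = (φ v).1.1 → (cg (cl φ) ω).Reachable u v := fun u v h => by
      by_cases e : (φ u).1.2 = (φ v).1.2
      · exact h2 u v (Prod.ext h e)
      obtain ⟨_, ⟨x, rfl⟩, h'⟩ := H.2 ⟨((φ u).1.1, (φ u).1.2, (φ v).1.2), e⟩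
      refine (h2 u (φ.symm ((φ u).1, x.1.castLE (by omega))) (by simp)).trans (.trans
        (SimpleGraph.Adj.reachable ?_) (h2 (φ.symm (((φ u).1.1, (φ v).1.2), x.2)) v (by simp [h])))
      simp only [cg, SimpleGraph.fromEdgeSet_adj, Set.mem_ofPred_eq, cl, Sym2.lift_mk, c]
      exact ⟨by simpa, fun e' => e (by simpa using congrArg (fun v => (φ v).1.2) e')⟩
    have h4 : ∀ u v, (φ u).1.1 = (φ v).1.1 - 1 → (cg (cl φ) ω).Reachable u v := fun u v h =>
      let ⟨w, hw, h'⟩ := h1 (φ v).1; (h3 u w (h.trans hw.symm)).trans (h' v rfl)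
    have : Nonempty V := ⟨φ.symm ((0, ⟨0, hm⟩), ⟨0, by omega⟩)⟩
    refine h ⟨fun u v => ?_⟩
    rcases (by decide : ∀ a b : ZMod 3, a = b ∨ a = b - 1 ∨ b = a - 1) (φ u).1.1 (φ v).1.1 with h | h | h
    exacts [h3 u v h, h4 u v h, (h4 v u h).symm]
  grw [measureReal_mono this, measureReal_union_le, measureReal_iUnion_fintype_le,
    measureReal_iUnion_fintype_le, sum_le_card_nsmul _ _ (Real.exp (-(p * (m * s)))) fun g _ => ?_,
    sum_le_card_nsmul _ _ (Real.exp (-(p * (m * s)))) fun g _ => ?_, card_univ, card_univ,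
    Fintype.card_subtype_le]
  · have : (1 : ℝ) ≤ m := by exact_mod_cast hm
    simp only [Fintype.card_prod, ZMod.card, Fintype.card_fin, nsmul_eq_mul, ← add_mul]
    gcongr; push_cast; nlinarith
  · refine (miss hp _).trans_eq ?_
    rw [card_image_of_injective]; · simp
    intro x y h
    have := g.2
    simp_all [Prod.ext_iff]
  · refine (miss hp _).trans_eq ?_
    rw [card_image_of_injective]; · simp
    intro x y h
    simp_all [Prod.ext_iff]

theorem result : ∃ (d : ℕ → ℕ) (p : ℕ → ℝ) (Ω : ℕ → Type) (_ : ∀ n, MeasurableSpace (Ω n))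
    (μ : ∀ n, Measure (Ω n)) (G : ∀ n, Ω n → SimpleGraph (Fin n)),
    (fun n => (d n : ℝ)) =O[atTop] (fun n => n / Real.log n) ∧ p =o[atTop] (fun n => Real.log n / n) ∧
    (∀ n, p n ∈ Set.Icc 0 1 ∧ IsDep (μ n) (G n) (p n) (d n)) ∧
    ∃ᶠ n in atTop, 1 / 2 ≤ (μ n).real {ω | (G n ω).Connected} := by
  let p : ℕ → ℝ := fun n => √(Real.log n) / n
  have hp : ∀ n, p n ∈ Set.Icc 0 1 := fun n => ⟨by positivity, div_le_one_of_le₀ (Real.sqrt_le_iff.2
    ⟨by positivity, (Real.log_le_self (by positivity)).trans (by exact_mod_cast Nat.le_self_pow two_ne_zero n)⟩)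
      (by positivity)⟩
  have : ∀ n, ∃ (C : Type) (_ : Fintype C) (cl : Sym2 (Fin n) → C),
      (∀ c, {e | ¬ e.IsDiag ∧ cl e = c}.ncard ≤ ⌊n / Real.log n⌋₊ + 1) ∧
      ((∃ m ≥ 10 ^ 9, n = 3 * m * 2 ^ m) → (coins C (p n)).real {ω | ¬ (cg cl ω).Connected} ≤ 1 / 2) := by
    intro n
    by_cases h : ∃ m ≥ 10 ^ 9, n = 3 * m * 2 ^ m
    swap
    · exact ⟨_, inferInstance, id, fun e => (Set.ncard_le_ncard (t := {e}) fun _ h => h.2).trans (by simp),
        fun h' => (h h').elim⟩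
    obtain ⟨m, hm, h⟩ := h
    have m0 : (10 ^ 9 : ℝ) ≤ m := by exact_mod_cast hm
    have hn : (n : ℝ) = 3 * m * 2 ^ m := by exact_mod_cast h
    have l2 := Real.log_two_gt_d9
    have l2' := Real.log_two_lt_d9
    have hl : Real.log n = Real.log (3 * m) + m * Real.log 2 := by
      rw [hn, Real.log_mul (by positivity) (by positivity), Real.log_pow]
    have a : 0 ≤ Real.log (3 * m) := Real.log_nonneg (by linarith)
    have b : Real.log (3 * m) ≤ 2 * m := by
      rw [Real.log_mul (by norm_num) (by positivity)]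
      linarith [Real.log_le_self (show (0 : ℝ) ≤ 3 by norm_num), Real.log_le_self (show (0 : ℝ) ≤ m by positivity)]
    refine ⟨_, inferInstance, cl (Fintype.equivOfCardEq (by simp [h]) :
      Fin n ≃ (ZMod 3 × Fin m) × Fin (2 ^ m)), fun x => (fib _ (by positivity) x).trans
        ((Nat.le_floor ?_).trans (Nat.le_succ _)), fun _ => (conn _ (by omega) ?_ (hp n)).trans ?_⟩
    · rw [le_div_iff₀ (by nlinarith), hn, mul_comm, Nat.cast_pow, Nat.cast_two, ← hn, hl, hn]
      gcongr; nlinarith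
    · exact Nat.mul_le_pow (by norm_num) m
    · rw [show p n * (m * (2 ^ m : ℕ)) = √(Real.log n) / 3 by simp only [p]; rw [hn]; push_cast; field_simp,
        Real.exp_neg, ← div_eq_mul_inv, div_le_iff₀ (Real.exp_pos _)]
      have := Real.pow_div_factorial_le_exp (√(Real.log n) / 3) (by positivity) 6
      rw [div_pow, show 6 = 2 * 3 from rfl, pow_mul, Real.sq_sqrt (by positivity)] at this
      have h3 : (m / 2 : ℝ) ^ 3 ≤ Real.log n ^ 3 := by gcongr; nlinarith
      norm_num [Nat.factorial] at this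
      nlinarith [sq_nonneg (m : ℝ)]
  choose C _ cl h1 h2 using this
  refine ⟨fun n => ⌊n / Real.log n⌋₊, p, fun n => C n → Prop, inferInstance, fun n => coins _ (p n),
    fun n => cg (cl n), .of_bound' (.of_forall fun n => ?_), ?_, fun n => ⟨hp n, model _ (hp n) (h1 n)⟩,
    frequently_atTop.2 fun N => ⟨3 * (N + 10 ^ 9) * 2 ^ (N + 10 ^ 9), ?_, ?_⟩⟩
  · rw [Real.norm_natCast]
    exact (Nat.floor_le (by positivity)).trans (le_abs_self (n / Real.log n : ℝ))
  · simp only [p, div_eq_mul_inv]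
    refine IsLittleO.mul_isBigO ?_ (isBigO_refl _ _)
    refine (isLittleO_iff_tendsto fun n h => by simp [h]).2 ?_
    simpa only [Real.sqrt_div_self', Function.comp] using (tendsto_inv_atTop_zero.comp (Real.tendsto_sqrt_atTop.comp
      (Real.tendsto_log_atTop.comp tendsto_natCast_atTop_atTop))).congr fun n => (one_div _).symm
  · exact le_trans (by omega) (Nat.le_mul_of_pos_right _ (by positivity))
  · have := h2 _ ⟨N + 10 ^ 9, by omega, rfl⟩
    generalize 3 * (N + 10 ^ 9) * 2 ^ (N + 10 ^ 9) = n at *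
    have _ := (model _ (hp n) (h1 n)).1
    rw [← Set.compl_ofPred, probReal_compl_eq_one_sub .of_discrete] at this
    linarith

end Pool.Agent.Results.MP_b3d828_pr.Counter
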